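import Pool.Agent.Q269.DX.JQ.Stm
import Pool.Agent.Q269.SL.Prb

/-!
# Project JQ, part I, continued: several families, moments, the law
-/

set_option autoImplicit false
set_option linter.unusedVariables false

namespace Pool.Agent.Q269.DX.JQ

open Pool.Agent.Q269.DX.Bs (ze ze_add)

open Finset Module
open Pool.Agent.Q269.DX.Bs (prs ext)
open Pool.Agent.Q269.SL (law2 lam2)
open Pool.Agent.Q269.MF (bet)
open scoped Classical

/-- the law in a class of parity `c`: `β 2 ^ e / ((2 - 1) (2 ^ 2 - 1) ⋯ (2 ^ e - 1))` for `e = c` modulo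
`2`, `β = ∏ (1 - 2 ^ (- 2 i - 1)) = 0.4194...` -/
noncomputable def lawc (c : ZMod 2) (e : ℕ) : ℝ := if ((e : ℕ) : ZMod 2) = c then 2 * law2 e else 0

/-- JQ-MOM: the moments and the parity determine the law. Proof: `Pool.Agent.Q269.SL.two_coef`,
`evc`, `evc_shc`, `mom_shc`, `cP_tendsto` (files Q269/SL/Co.lean, Pa.lean): for large `K` there are
coefficients `l`, `u` with `evc l ≤ indicator of e ≤ evc u` on the naturals of the given parity, whose
values at the moments `aj j = 2 ^ (j (j + 1) / 2)` are close to `lawc`. -/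
def S_MOM : Prop := ∀ (κ : Type) [Fintype κ] (c : κ → ZMod 2) (r : κ → ℕ) (η : ℝ), 0 < η →
  ∃ (M : ℕ) (δ : ℝ), 0 < δ ∧ ∀ (Ω : Type) [Fintype Ω] [Nonempty Ω] (e : Ω → κ → ℕ),
    (∀ w k, ((e w k : ℕ) : ZMod 2) = c k) →
    (∀ m : κ → ℕ, (∀ k, m k ≤ M) →
      |(∑ w, ∏ k, ∏ i ∈ range (m k), ((2 : ℝ) ^ e w k - 2 ^ i)) / Fintype.card Ω -
        ∏ k, (2 : ℝ) ^ (m k * (m k + 1) / 2)| ≤ δ) →
    |((univ.filter fun w => e w = r).card : ℝ) / Fintype.card Ω - ∏ k, lawc (c k) (r k)| ≤ η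

section pi

variable {s A : Type} [Fintype s] [Fintype A] {V : A → Type} [∀ c, AddCommGroup (V c)]
  [∀ c, Module (ZMod 2) (V c)]

/-- the direct sum of data -/
noncomputable def Dj.pi (t₀ : s) (D : ∀ c, Dj s (V c)) : Dj s (∀ c, V c) where
  ω := LinearMap.mk₂ (ZMod 2) (fun x y => ∑ c, (D c).ω (x c) (y c))
    (fun x x' y => by
      rw [← sum_add_distrib]
      exact sum_congr rfl fun c _ => by rw [Pi.add_apply, map_add, LinearMap.add_apply])
    (fun a x y => by
      rw [smul_sum]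
      exact sum_congr rfl fun c _ => by rw [Pi.smul_apply, map_smul, LinearMap.smul_apply])
    (fun x y y' => by
      rw [← sum_add_distrib]
      exact sum_congr rfl fun c _ => by rw [Pi.add_apply, map_add])
    (fun a x y => by
      rw [smul_sum]
      exact sum_congr rfl fun c _ => by rw [Pi.smul_apply, map_smul])
  T := LinearMap.mk₂ (ZMod 2) (fun φ x c => (D c).T φ (x c))
    (fun φ φ' x => by
      funext c
      rw [map_add, LinearMap.add_apply, Pi.add_apply])
    (fun a φ x => by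
      funext c
      rw [map_smul, LinearMap.smul_apply, Pi.smul_apply])
    (fun φ x x' => by
      funext c
      rw [Pi.add_apply, map_add, Pi.add_apply])
    (fun a φ x => by
      funext c
      rw [Pi.smul_apply, map_smul, Pi.smul_apply])
  s₀ := t₀
  𝓛 :=
    { carrier := {y | ∀ c, ((fun t => y.1 t c), (fun t => y.2 t c)) ∈ (D c).𝓛}
      add_mem' := fun {y y'} hy hy' c => (D c).𝓛.add_mem (hy c) (hy' c)
      zero_mem' := fun c => (D c).𝓛.zero_mem
      smul_mem' := fun a y hy c => (D c).𝓛.smul_mem a (hy c) }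

end pi

/-- JQ-PI: the direct sum satisfies the conditions, and an element is a solution if and only if its
components are. -/
def S_PI : Prop := ∀ (s A : Type) [Fintype s] [Fintype A] (V : A → Type) [∀ c, AddCommGroup (V c)]
  [∀ c, Module (ZMod 2) (V c)] [∀ c, Finite (V c)] (t₀ : s) (ρ : s → ZMod 2) (D : ∀ c, Dj s (V c)),
  (∀ c, (D c).s₀ = t₀) → (∀ c, (D c).Ok ρ) → (Dj.pi t₀ D).Ok ρ ∧
  ∀ (P : Type) [Fintype P] (N : P → P → ZMod 2) (h : P → s → ZMod 2)
    (e : (s → ∀ c, V c) × (P → ∀ c, V c)), e ∈ Sel (Dj.pi t₀ D) N h ↔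
      ∀ c, ((fun t => e.1 t c), (fun p => e.2 p c)) ∈ Sel (D c) N h

section several

variable {s κ : Type} [Fintype s] [Fintype κ] {V : κ → Type} [∀ k, AddCommGroup (V k)]
  [∀ k, Module (ZMod 2) (V k)]

/-- the space for the moments of order `m k` -/
abbrev UV (V : κ → Type) (m : κ → ℕ) : Type := ∀ c : (Σ k, Fin (m k)), V c.1

/-- the direct sum with multiplicities `m k` -/
noncomputable def DD (t₀ : s) (D : ∀ k, Dj s (V k)) (m : κ → ℕ) : Dj s (UV V m) :=
  Dj.pi (A := Σ k, Fin (m k)) (V := fun c => V c.1) t₀ fun c => D c.1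

/-- the operator of a family of matrices -/
noncomputable def opS (V : κ → Type) [∀ k, AddCommGroup (V k)] [∀ k, Module (ZMod 2) (V k)] {m : κ → ℕ}
    (M : ∀ k, Matrix (Fin (m k)) (Fin (m k)) (ZMod 2)) : UV V m →ₗ[ZMod 2] UV V m where
  toFun x c := ∑ b, M c.1 c.2 b • x ⟨c.1, b⟩
  map_add' x y := by
    funext c
    simp only [Pi.add_apply, smul_add, sum_add_distrib]
  map_smul' a x := by
    funext c
    simp only [Pi.smul_apply, RingHom.id_apply, smul_sum, smul_comm a]

/-- the operators of the families of symmetric matrices -/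
noncomputable def SS (V : κ → Type) [∀ k, AddCommGroup (V k)] [∀ k, Module (ZMod 2) (V k)]
    (m : κ → ℕ) : Finset (UV V m →ₗ[ZMod 2] UV V m) :=
  ((univ : Finset (∀ k, Matrix (Fin (m k)) (Fin (m k)) (ZMod 2))).filter
    fun M => ∀ k, (M k).transpose = M k).image (opS V)

/-- no nontrivial combination of the `m k` components in `V k` vanishes on the subspace -/
def GmD (V : κ → Type) [∀ k, AddCommGroup (V k)] [∀ k, Module (ZMod 2) (V k)] {m : κ → ℕ}
    (M : Submodule (ZMod 2) (UV V m)) : Prop :=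
  ∀ (k : κ) (c : Fin (m k) → ZMod 2), c ≠ 0 → ∃ x ∈ M, (∑ b, c b • (show V k from x ⟨k, b⟩)) ≠ 0

/-- the operators with positive labels generate all endomorphisms of all `V k` -/
def Adj (t₀ : s) (D : ∀ k, Dj s (V k)) : Prop :=
  Algebra.adjoin (ZMod 2) (Set.range fun φ : {φ : s → ZMod 2 // ze φ t₀ = 0} =>
    (fun k => (D k).T φ.1 : ∀ k, Module.End (ZMod 2) (V k))) = ⊤

end several

/-- JQ-SS: the set of the operators of symmetric matrices has the properties required in `S_LAM`, and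
its number of elements. Proof of the last part: `Λ` is invariant under `(T φ, T φ)` for `φ s₀ = 0`,
hence by `Adj` under all `∏ End (V k)` acting diagonally. The projection `M` of `Λ` to the first
factor is invariant; its part in `V k ^ m k` is `V k ⊗ M'`; if `M'` is not everything there is a
combination `c` that vanishes on it, in contradiction with `GmD`. So the projection is surjective and
`Λ` is the graph of an `S` which commutes with `∏ End (V k)`; such an `S` is the operator of a family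
of matrices, and `ω (S x) x = 0` implies that they are symmetric (`ω` is nondegenerate and
alternating and `V k` is not zero). -/
def S_SS : Prop := ∀ (s κ : Type) [Fintype s] [Fintype κ] (V : κ → Type) [∀ k, AddCommGroup (V k)]
  [∀ k, Module (ZMod 2) (V k)] [∀ k, Finite (V k)] [∀ k, Nontrivial (V k)] (t₀ : s)
  (ρ : s → ZMod 2) (D : ∀ k, Dj s (V k)), (∀ k, (D k).s₀ = t₀) → (∀ k, (D k).Ok ρ) → Adj t₀ D →
  ∀ m : κ → ℕ,
  ((SS V m).card : ℝ) = ∏ k, (2 : ℝ) ^ (m k * (m k + 1) / 2) ∧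
  (∀ S ∈ SS V m, (∀ φ x, S ((DD t₀ D m).T φ x) = (DD t₀ D m).T φ (S x)) ∧
    (∀ x, (DD t₀ D m).ω (S x) x = 0) ∧
    (∀ y ∈ (DD t₀ D m).𝓛, ((DD t₀ D m).tw S).q y = 0) ∧ GmD V (⊤ : Submodule (ZMod 2) (UV V m))) ∧
  (∀ Λ : Submodule (ZMod 2) (UV V m × UV V m), (∀ z ∈ Λ, (DD t₀ D m).ω z.2 z.1 = 0) →
    Nat.card Λ = Nat.card (UV V m) →
    GmD V (Λ.map (LinearMap.fst (ZMod 2) (UV V m) (UV V m))) →
    (∀ φ : s → ZMod 2, ze φ t₀ = 0 → ∀ z ∈ Λ, ((DD t₀ D m).T φ z.1, (DD t₀ D m).T φ z.2) ∈ Λ) →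
    ∃ S ∈ SS V m, ∀ z, z ∈ Λ ↔ z.2 = S z.1)

/-- JQ-CNT: the number of the solutions for `DD` with the property `GmD` is a product. Proof: by
`S_PI` a solution is a family of solutions `e (k, b)` of `D k`; the property `GmD` says that no
combination of the `e (k, b)`, `b < m k`, is constant on the large primes; a solution of `D k`
is constant on the large primes if and only if it is one of the `#V k` torsion elements of `S_TOR`
(if it is zero on the large primes then it is zero: `nd` gives `x = 0` on `U` and the labels of the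
large primes span, so `δ = 0`). So one counts the families which are linearly independent modulo the
torsion. -/
def S_CNT : Prop := ∀ (s κ : Type) [Fintype s] [Fintype κ] (V : κ → Type) [∀ k, AddCommGroup (V k)]
  [∀ k, Module (ZMod 2) (V k)] [∀ k, Finite (V k)] (t₀ : s)
  (ρ : s → ZMod 2) (D : ∀ k, Dj s (V k)), (∀ k, (D k).s₀ = t₀) → (∀ k, (D k).Ok ρ) →
  ∀ (m : κ → ℕ) (U ι : Type) [Fintype U] [Fintype ι] [LinearOrder ι] (b : Bk s U ι),
  b.Ok t₀ ρ 1 → ∀ α : prs (univ : Finset ι) → ZMod 2,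
    (cnt (DD t₀ D m) b (GmD V) α : ℝ) = ∏ k, ∏ i ∈ range (m k),
      ((Nat.card (Sel (D k) (b.N t₀ α) b.h) : ℝ) - (Nat.card (V k) : ℝ) * 2 ^ i)

/-- JQ-LAJ: the joint law of the dimensions. Proof: `S_LAM` for `DD t₀ D m`, all `m k ≤ M`, `S_SS`,
`S_CNT`, `S_PAR`, `S_TOR` (the dimension of the solutions is at least that of `V k`), `S_MOM` with
`e α k = finrank Sel - finrank V k`. -/
def S_LAJ : Prop := ∀ (s κ : Type) [Fintype s] [Fintype κ] (V : κ → Type) [∀ k, AddCommGroup (V k)]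
  [∀ k, Module (ZMod 2) (V k)] [∀ k, Finite (V k)] [∀ k, Nontrivial (V k)] (t₀ : s)
  (ρ : s → ZMod 2) (D : ∀ k, Dj s (V k)), (∀ k, (D k).s₀ = t₀) → (∀ k, (D k).Ok ρ) → Adj t₀ D →
  ∀ (r : κ → ℕ) (ε : ℝ), 0 < ε → ∃ R : ℕ, 1 ≤ R ∧ ∀ (U ι : Type) [Fintype U] [Fintype ι]
    [LinearOrder ι] (b : Bk s U ι), b.Ok t₀ ρ R →
    |((univ.filter fun α : prs (univ : Finset ι) → ZMod 2 =>
        ∀ k, finrank (ZMod 2) (Sel (D k) (b.N t₀ α) b.h) = finrank (ZMod 2) (V k) + r k).card : ℝ) /
        2 ^ (prs (univ : Finset ι)).card -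
      ∏ k, lawc ((finrank (ZMod 2) (D k).pm : ℕ) : ZMod 2) (r k)| ≤ ε

end Pool.Agent.Q269.DX.JQ
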