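import Pool.Agent.Q269.DX.JQ.StmB

/-!
# Project JQ, second version: all operators, weaker hypotheses

The same statements as in Stm and StmB, but the subspaces are required to be invariant under ALL the
operators `T φ` (not only those with `φ s₀ = 0`). So the joint law holds under the weaker hypothesis that
all the operators together generate `∏ End (V k)`. For elliptic curves this is satisfied if there is no
rational cyclic subgroup of order 4.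
-/

set_option autoImplicit false
set_option linter.unusedVariables false

namespace Pool.Agent.Q269.DX.JQ

open Pool.Agent.Q269.DX.Bs (ze ze_add)

open Finset Module
open Pool.Agent.Q269.DX.Bs (prs ext)
open scoped Classical

/-- JQ-NINV2: as `S_NINV`, but for all `φ`, with one more factor `#V`. Proof: the case `φ s₀ = 0` is
`S_NINV`; in general fix `δ`, the `x_u`, the coset `z + Λ` of the `Z_i = (x_i, W_i) = z + λ_i` and a
character from the conditions of `EU`. Let `B (λ, λ') = ω (λ.2, λ'.1)`; it is symmetric and alternating on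
`Λ` since `ω (z.2, z.1)` vanishes on `Λ`. For `v_i = hJ i s₀` the terms `[j < i] v_i v_j ω (W_i, x_i + x_j)`
are `[j < i] v_i v_j (ω (w, ξ_i + ξ_j) + B (λ_i, λ_j))`. Let `q` be a quadratic form on `Λ` with polar form
`B` (`q x = ∑_{k<l} B (e_k, e_l) x_k x_l` in a basis); then `∑_{j<i} v_i v_j B (λ_i, λ_j) = q (∑ v_i λ_i) +
∑ v_i q (λ_i)`. Write the sum as a sum over `σ = ∑ v_i λ_i` and detect this condition by characters of `Λ`:
the absolute value of the sum over the `λ_i` is at most `#Λ` times the maximum over the characters of the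
product over `i` of `|∑_{λ_i} sg (f_i λ_i)|`, and for `hJ i = φ` the function `f_i` is
`ω (μ, T φ ξ) + v_i q` plus an affine function (`λ = (ξ, μ)`), whose second difference is
`ω (μ, T φ ξ') + ω (μ', T φ ξ) + v_i ω (μ', ξ)`. By `adj` this is
`ω (μ, T φ ξ') + ω (T φ μ', ξ)` up to symmetry, which is not identically zero, otherwise `(T φ, T φ) Λ` is
orthogonal to `Λ` for the polar form of `ω (z.2, z.1)` and hence contained in `Λ`. -/
def S_NINV2 : Prop := ∀ (s V U ι : Type) [Fintype s] [AddCommGroup V] [Module (ZMod 2) V] [Fintype V]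
  [Fintype U] [Fintype ι] [LinearOrder ι] (D : Dj s V) (ρ : s → ZMod 2), D.Ok ρ →
  ∀ b : Bk s U ι, b.Ok D.s₀ ρ 1 → ∀ Λ : Submodule (ZMod 2) (V × V),
  (∀ z ∈ Λ, D.ω z.2 z.1 = 0) → Nat.card Λ = Fintype.card V →
  ∀ φ : s → ZMod 2, (∃ z ∈ Λ, (D.T φ z.1, D.T φ z.2) ∉ Λ) →
  |∑ e : (s → V) × (U ⊕ ι → V), ∑ W : ι → V, if e ∈ EU D b ∧
      (∀ i j, (e.2 (Sum.inr i) + e.2 (Sum.inr j), W i + W j) ∈ Λ) then
        sg (∑ i, D.ω (W i) (rowL D (b.N D.s₀ 0) b.h e (Sum.inr i))) else 0| ≤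
    (Fintype.card V : ℝ) ^ (2 + Fintype.card s + Fintype.card U + Fintype.card ι) /
      2 ^ (univ.filter fun i => b.hJ i = φ).card

/-- JQ-LAM2: as `S_LAM` (same proof with `S_NINV2`), invariance under all the operators. -/
def S_LAM2 : Prop := ∀ (s V : Type) [Fintype s] [AddCommGroup V] [Module (ZMod 2) V] [Finite V]
  (D : Dj s V) (ρ : s → ZMod 2), D.Ok ρ → ∀ (Gm : Submodule (ZMod 2) V → Prop)
  (𝒮 : Finset (V →ₗ[ZMod 2] V)),
  (∀ S ∈ 𝒮, (∀ φ x, S (D.T φ x) = D.T φ (S x)) ∧ (∀ x, D.ω (S x) x = 0) ∧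
    (∀ y ∈ D.𝓛, (D.tw S).q y = 0) ∧ Gm ⊤) →
  (∀ Λ : Submodule (ZMod 2) (V × V), (∀ z ∈ Λ, D.ω z.2 z.1 = 0) → Nat.card Λ = Nat.card V →
    Gm (Λ.map (LinearMap.fst (ZMod 2) V V)) →
    (∀ φ : s → ZMod 2, ∀ z ∈ Λ, (D.T φ z.1, D.T φ z.2) ∈ Λ) →
    ∃ S ∈ 𝒮, ∀ z, z ∈ Λ ↔ z.2 = S z.1) →
  ∀ ε : ℝ, 0 < ε → ∃ R : ℕ, 1 ≤ R ∧ ∀ (U ι : Type) [Fintype U] [Fintype ι] [LinearOrder ι]
    (b : Bk s U ι), b.Ok D.s₀ ρ R →
    |(∑ α : prs (univ : Finset ι) → ZMod 2, (cnt D b Gm α : ℝ)) / 2 ^ (prs (univ : Finset ι)).card -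
      (Nat.card V : ℝ) * (𝒮.card : ℝ)| ≤ ε

section adj

variable {s κ : Type} [Fintype s] [Fintype κ] {V : κ → Type} [∀ k, AddCommGroup (V k)]
  [∀ k, Module (ZMod 2) (V k)]

/-- all the operators generate all endomorphisms of all `V k` -/
def Adj2 (D : ∀ k, Dj s (V k)) : Prop :=
  Algebra.adjoin (ZMod 2) (Set.range fun φ : s → ZMod 2 =>
    (fun k => (D k).T φ : ∀ k, Module.End (ZMod 2) (V k))) = ⊤

end adj

/-- JQ-SS2: as `S_SS` (same proof), with all the operators. -/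
def S_SS2 : Prop := ∀ (s κ : Type) [Fintype s] [Fintype κ] (V : κ → Type) [∀ k, AddCommGroup (V k)]
  [∀ k, Module (ZMod 2) (V k)] [∀ k, Finite (V k)] [∀ k, Nontrivial (V k)] (t₀ : s)
  (ρ : s → ZMod 2) (D : ∀ k, Dj s (V k)), (∀ k, (D k).s₀ = t₀) → (∀ k, (D k).Ok ρ) → Adj2 D →
  ∀ m : κ → ℕ,
  ((SS V m).card : ℝ) = ∏ k, (2 : ℝ) ^ (m k * (m k + 1) / 2) ∧
  (∀ S ∈ SS V m, (∀ φ x, S ((DD t₀ D m).T φ x) = (DD t₀ D m).T φ (S x)) ∧
    (∀ x, (DD t₀ D m).ω (S x) x = 0) ∧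
    (∀ y ∈ (DD t₀ D m).𝓛, ((DD t₀ D m).tw S).q y = 0) ∧ GmD V (⊤ : Submodule (ZMod 2) (UV V m))) ∧
  (∀ Λ : Submodule (ZMod 2) (UV V m × UV V m), (∀ z ∈ Λ, (DD t₀ D m).ω z.2 z.1 = 0) →
    Nat.card Λ = Nat.card (UV V m) →
    GmD V (Λ.map (LinearMap.fst (ZMod 2) (UV V m) (UV V m))) →
    (∀ φ : s → ZMod 2, ∀ z ∈ Λ, ((DD t₀ D m).T φ z.1, (DD t₀ D m).T φ z.2) ∈ Λ) →
    ∃ S ∈ SS V m, ∀ z, z ∈ Λ ↔ z.2 = S z.1)

/-- JQ-LAJ2: as `S_LAJ` (same proof, with `S_LAM2` and `S_SS2`). -/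
def S_LAJ2 : Prop := ∀ (s κ : Type) [Fintype s] [Fintype κ] (V : κ → Type) [∀ k, AddCommGroup (V k)]
  [∀ k, Module (ZMod 2) (V k)] [∀ k, Finite (V k)] [∀ k, Nontrivial (V k)] (t₀ : s)
  (ρ : s → ZMod 2) (D : ∀ k, Dj s (V k)), (∀ k, (D k).s₀ = t₀) → (∀ k, (D k).Ok ρ) → Adj2 D →
  ∀ (r : κ → ℕ) (ε : ℝ), 0 < ε → ∃ R : ℕ, 1 ≤ R ∧ ∀ (U ι : Type) [Fintype U] [Fintype ι]
    [LinearOrder ι] (b : Bk s U ι), b.Ok t₀ ρ R →
    |((univ.filter fun α : prs (univ : Finset ι) → ZMod 2 =>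
        ∀ k, finrank (ZMod 2) (Sel (D k) (b.N t₀ α) b.h) = finrank (ZMod 2) (V k) + r k).card : ℝ) /
        2 ^ (prs (univ : Finset ι)).card -
      ∏ k, lawc ((finrank (ZMod 2) (D k).pm : ℕ) : ZMod 2) (r k)| ≤ ε

end Pool.Agent.Q269.DX.JQ
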